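import Pool.Agent.TH683.WH.Lang

/-! # The problems with a hidden key, with single questions at the leaves -/

set_option autoImplicit false

namespace Pool.Agent.TH683.WS

open Pool.Agent.NPC Pool.Agent.H620R2.Gauge Pool.Agent.H591R3.PHG Pool.Agent.H622R2
  Pool.Agent.TH678.HW Pool.Agent.TH678.WP Pool.Agent.TH678.ETH
open Pool.Agent.H591R3.PHG.LangSig (fit length_fit fit_eq dec poly_fit poly_dec exists_fit forall_fit
  length_unpair)
open Pool.Agent.H591R3.PHG.LangTrAux (enc_append enc_nil parse_enc Tr_addr)
open Pool.Agent.TH683.WH (Alt InW InWide alt_congr alt_and cv Kq poly_Kq poly_cv poly_u1 poly_u2 RT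
  xin RT_xin enc_str length_xin)

/-- the question for the leaf -/
def Lq (t : ℕ) (y : List Bool) : List Bool :=
  true :: true :: pairBits (unpair (dec (t + 1) (cv t y)).1).1 (dec (t + 1) (cv t y)).2

/-- the next action; at least one further quantifier is used -/
def DT (t : ℕ) (z : List Bool) : List Bool :=
  if (unpair z).2 = [] then false :: Kq (strip t (unpair z).1)
  else if (unpair z).2.tail = [] then false :: Lq (t + 1) (unpair z).1
  else if (unpair z).2 = [true, !bot false (t + 1)] then [true, true] else [true]

theorem poly_Lq (t : ℕ) : Poly (Lq t) := by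
  have h1 : Poly (fun y : List Bool => dec (t + 1) (cv t y)) :=
    (poly_dec (t + 1)).comp (poly_cv t)
  exact Poly.cons (NPC.Poly.const true) (Poly.cons (NPC.Poly.const true)
    (poly_pairBits (poly_u1.comp (Poly.fst h1)) (Poly.snd h1)))

theorem poly_DT (t : ℕ) : Poly (DT t) := by
  have h1 : Poly (fun z : List Bool => Kq (strip t (unpair z).1)) :=
    poly_Kq.comp ((poly_strip t).comp poly_u1)
  have h2 : Poly (fun z : List Bool => Lq (t + 1) (unpair z).1) := (poly_Lq (t + 1)).comp poly_u1
  exact Poly.ite (Poly.decide_eq poly_u2 (NPC.Poly.const _))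
    (Poly.cons (NPC.Poly.const false) h1)
    (Poly.ite (Poly.decide_eq (Poly.tail poly_u2) (NPC.Poly.const _))
      (Poly.cons (NPC.Poly.const false) h2)
      (Poly.ite (Poly.decide_eq poly_u2 (NPC.Poly.const _)) (NPC.Poly.const _)
        (NPC.Poly.const _)))

/-- the algorithm -/
noncomputable def MT (t : ℕ) : Alg := ⟨DT t, polyTime_of_poly_list (poly_DT t), 1⟩

theorem run_MT (t : ℕ) (B : Oracle) (y : List Bool) {m : ℕ} (hm : 2 ≤ m) :
    (MT t).run B y (m + 1) [] = some [true] ↔
      B (Kq (strip t y)) = true ∧ B (Lq (t + 1) y) = !bot false (t + 1) := by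
  obtain ⟨m, rfl⟩ : ∃ m', m = m' + 2 := ⟨m - 2, by omega⟩
  have h0 : (MT t).D (pairBits y []) = false :: Kq (strip t y) := by
    unfold MT DT
    simp only [unpair_pairBits, if_true]
  have h1 : ∀ b : Bool, (MT t).D (pairBits y [b]) = false :: Lq (t + 1) y := by
    intro b
    unfold MT DT
    simp only [unpair_pairBits]
    simp
  have h2 : ∀ b c : Bool, (MT t).D (pairBits y [b, c]) =
      if b = true ∧ c = !bot false (t + 1) then [true, true] else [true] := by
    intro b c
    unfold MT DT
    simp only [unpair_pairBits]
    simp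
  rw [Alg.run, h0]
  show (MT t).run B y (m + 1 + 1) ([] ++ [B (Kq (strip t y))]) = some [true] ↔ _
  rw [List.nil_append, Alg.run, h1]
  show (MT t).run B y (m + 1) ([B (Kq (strip t y))] ++ [B (Lq (t + 1) y)]) = some [true] ↔ _
  rw [List.singleton_append, Alg.run, h2]
  by_cases h3 : B (Kq (strip t y)) = true ∧ B (Lq (t + 1) y) = !bot false (t + 1)
  · rw [if_pos h3]
    simp [h3]
  · rw [if_neg h3]
    simp only [Option.some.injEq, iff_false_intro h3, iff_false]
    simp

/-- **The problems with a hidden key.** -/
def prob (t : ℕ) (O : Oracle) : Set (List Bool × ℕ) :=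
  {p | ∃ w : List Bool, w.length ≤ p.2 * (Nat.log 2 p.1.length + 1) ∧
    Alt (Nat.log 2 p.1.length + 1) (Tail (MT t) O (p.2 * (Nat.log 2 p.1.length + 1)) p.2) (t + 1)
      false (pairBits w (RT p.1))}

theorem prob_w (t : ℕ) (O : Oracle) : InW O (t + 2) (prob t O) := by
  have hR : Poly (fun z : List Bool => RT (unpair z).2) :=
    (poly_pairBits poly_u1 (poly_pairBits (poly_u1.comp poly_u2)
      (poly_u1.comp (poly_u2.comp poly_u2)))).comp poly_u2
  refine ⟨fun _ => [], fun k => k, fun z => RT (unpair z).2, MT t, Computable.const _,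
    Computable.id, IsFP.of_poly hR, fun x k => ?_⟩
  have e : RT (unpair (pairBits [] x)).2 = RT x := by rw [unpair_pairBits]
  show _ ↔ ∃ w : List Bool, w.length ≤ k * (Nat.log 2 x.length + 1) ∧
    Alt (Nat.log 2 x.length + 1) (Tail (MT t) O (k * (Nat.log 2 x.length + 1)) k) (t + 1)
      false (pairBits w (RT (unpair (pairBits [] x)).2))
  rw [e]
  rfl

/-- the leaf -/
def lf (O : Oracle) (W : List Bool) (q : List Bool) : Bool := O (true :: true :: pairBits W q)

theorem alt_eval {t : ℕ} (O : Oracle) (m : ℕ) : ∀ (j i : ℕ) (b : Bool)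
    (y r q : List Bool), i + j = t → dec (i + 1) (cv i y) = (r, q) →
    (∀ a ∈ (parse j r).1, a ≤ m) →
      (Alt m (fun z => O (Lq t z) = !bot b j) j b y ↔
        ((parse j r).1.foldr up (lf O (unpair (parse j r).2).1)) q = !b) := by
  intro j
  induction j with
  | zero =>
    intro i b y r q hi hd hm
    have hi : i = t := by omega
    subst hi
    show O (Lq i y) = (!b) ↔ lf O (unpair r).1 q = !b
    unfold Lq lf
    rw [hd]
  | succ j ih =>
    intro i b y r q hi hd hm
    have hl : (unpair r).1.length ≤ m := hm _ (List.mem_cons_self ..)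
    have key : ∀ (w : List Bool), (Alt m (fun z => O (Lq t z) = !bot b (j + 1)) j (!b)
        (pairBits w y) ↔
        ((parse j (unpair r).2).1.foldr up
          (lf O (unpair (parse j (unpair r).2).2).1))
            (q ++ fit (unpair r).1 w) = b) := by
      intro w
      have h1 := ih (i + 1) (!b) (pairBits w y) (unpair r).2 (q ++ fit (unpair r).1 w)
        (by omega) (by simp only [cv, unpair_pairBits]; rw [dec]; simp only [unpair_pairBits, hd])
        (fun a ha => hm a (List.mem_cons_of_mem _ ha))
      rw [Bool.not_not] at h1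
      exact h1
    have hfold : ((parse (j + 1) r).1.foldr up
        (lf O (unpair (parse (j + 1) r).2).1)) q =
        decide (∀ i < 2 ^ (unpair r).1.length, ((parse j (unpair r).2).1.foldr up
          (lf O (unpair (parse j (unpair r).2).2).1))
            (q ++ bitsOf (unpair r).1.length i) = false) := rfl
    rw [hfold]
    cases b with
    | true =>
      have key' : ∀ w : List Bool, (Alt m (fun z => O (Lq t z) = !bot true (j + 1)) j false
        (pairBits w y) ↔ _) := key
      rw [Alt]
      simp only [key']
      rw [exists_fit (fun w => ((parse j (unpair r).2).1.foldr up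
          (lf O (unpair (parse j (unpair r).2).2).1))
            (q ++ w) = true) (unpair r).1 rfl hl]
      simp
    | false =>
      have key' : ∀ w : List Bool, (Alt m (fun z => O (Lq t z) = !bot false (j + 1)) j true
        (pairBits w y) ↔ _) := key
      rw [Alt]
      simp only [key']
      rw [forall_fit (fun w => ((parse j (unpair r).2).1.foldr up
          (lf O (unpair (parse j (unpair r).2).2).1))
            (q ++ w) = false) (unpair r).1 rfl hl]
      simp

/-- one guess -/
theorem alt_guess {t : ℕ} (O : Oracle) {m k n' : ℕ} (hk : 2 ≤ k) (w r : List Bool) :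
    Alt m (Tail (MT t) O n' k) (t + 1) false (pairBits w r) ↔
      (∀ v : List Bool, v.length ≤ m → upTo n' O (Kq (pairBits v (pairBits w r))) = true) ∧
        Alt m (fun z => upTo n' O (Lq (t + 1) z) = !bot false (t + 1)) (t + 1) false
          (pairBits w r) := by
  have h1 : ∀ y, Tail (MT t) O n' k y ↔ (upTo n' O (Kq (strip t y)) = true ∧
      upTo n' O (Lq (t + 1) y) = !bot false (t + 1)) := fun y => run_MT t _ y hk
  rw [alt_congr h1, Alt, Alt]
  have h2 : ∀ v : List Bool, Alt m (fun y => upTo n' O (Kq (strip t y)) = true ∧
      upTo n' O (Lq (t + 1) y) = !bot false (t + 1)) t true (pairBits v (pairBits w r)) ↔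
      (upTo n' O (Kq (pairBits v (pairBits w r))) = true ∧
        Alt m (fun z => upTo n' O (Lq (t + 1) z) = !bot false (t + 1)) t true
          (pairBits v (pairBits w r))) := fun v =>
    alt_and (fun y => upTo n' O (Kq y) = true)
      (fun y => upTo n' O (Lq (t + 1) y) = !bot false (t + 1)) t 0 true _ (by omega)
  simp only [h2]
  exact ⟨fun h => ⟨fun v hv => (h v hv).1, fun v hv => (h v hv).2⟩,
    fun h v hv => ⟨h.1 v hv, h.2 v hv⟩⟩

theorem mem_prob {t : ℕ} (O : Oracle) {k s b P W N : ℕ} {as : List ℕ} {z : List Bool}
    (hk : 2 ≤ k) (hlen : as.length = t + 2)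
    (hN : Nat.log 2 (xin s b P (enc as W z)).length = N) (has : ∀ a ∈ as, a ≤ N + 1)
    (hb : b ≤ N + 1) (hw : ∀ a ∈ as, 2 * s + 1 + a ≤ k * (N + 1)) :
    (xin s b P (enc as W z), k) ∈ prob t O ↔ ∃ u : List Bool, u.length = s ∧
      (∀ i < 2 ^ b, upTo (k * (N + 1)) O (true :: false :: (u ++ bitsOf b i)) = true) ∧
        (as.foldl (fun v a => up a v) (lf (upTo (k * (N + 1)) O) (List.replicate W true)))
          (enc as W (z ++ u)) = false := by
  unfold prob
  rw [Set.mem_ofPred_eq]
  dsimp only
  rw [hN, RT_xin]
  set n' := k * (N + 1) with hn'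
  -- the data
  have hX : ∀ u : List Bool, parse (t + 1 + 1) (enc as W (z ++ u)) =
      (as.reverse, pairBits (List.replicate W true) (z ++ u)) := by
    intro u
    have h1 : t + 1 + 1 = as.length := by omega
    rw [h1]
    exact parse_enc as W _
  have hX1 : ∀ u : List Bool, (unpair (enc as W (z ++ u))).1.length ::
      (parse (t + 1) (unpair (enc as W (z ++ u))).2).1 = as.reverse :=
    fun u => (Prod.ext_iff.1 (hX u)).1
  have hX2 : ∀ u : List Bool, (parse (t + 1) (unpair (enc as W (z ++ u))).2).2 =
      pairBits (List.replicate W true) (z ++ u) := fun u => (Prod.ext_iff.1 (hX u)).2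
  have hmem : ∀ u : List Bool, (unpair (enc as W (z ++ u))).1.length ∈ as := by
    intro u
    have h1 : (unpair (enc as W (z ++ u))).1.length ∈ as.reverse := by
      rw [← hX1 u]
      exact List.mem_cons_self ..
    exact List.mem_reverse.1 h1
  have hmem2 : ∀ u : List Bool, ∀ a ∈ (parse (t + 1) (unpair (enc as W (z ++ u))).2).1,
      a ∈ as := by
    intro u a ha
    have h1 : a ∈ as.reverse := by
      rw [← hX1 u]
      exact List.mem_cons_of_mem _ ha
    exact List.mem_reverse.1 h1
  have hWl : ∀ u : List Bool,
      (unpair (parse (t + 1) (unpair (enc as W (z ++ u))).2).2).1 = List.replicate W true := by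
    intro u
    rw [hX2 u, unpair_pairBits]
  have hlang : ∀ u : List Bool,
      (as.foldl (fun v a => up a v) (lf (upTo n' O) (List.replicate W true)))
        (enc as W (z ++ u)) = false ↔
      ∃ i < 2 ^ (unpair (enc as W (z ++ u))).1.length,
        ((parse (t + 1) (unpair (enc as W (z ++ u))).2).1.foldr up
          (lf (upTo n' O) (unpair (parse (t + 1) (unpair (enc as W (z ++ u))).2).2).1))
            (enc as W (z ++ u) ++ bitsOf (unpair (enc as W (z ++ u))).1.length i) = true := by
    intro u
    rw [← List.foldr_reverse, ← hX1 u, hWl u]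
    show decide (∀ i < 2 ^ (unpair (enc as W (z ++ u))).1.length, _ = false) = false ↔ _
    rw [decide_eq_false_iff_not]
    push Not
    refine exists_congr fun i => and_congr_right fun _ => ?_
    simp only [ne_eq, Bool.not_eq_false]
  -- one guess
  have hone : ∀ w : List Bool, Alt (N + 1) (Tail (MT t) O n' k) (t + 1) false
      (pairBits w (pairBits (List.replicate s true) (pairBits (List.replicate b true)
        (enc as W z)))) ↔
      (∀ i < 2 ^ b, upTo n' O (true :: false ::
        (fit (List.replicate s true) (unpair w).1 ++ bitsOf b i)) = true) ∧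
      ((parse (t + 1) (unpair (enc as W
          (z ++ fit (List.replicate s true) (unpair w).1))).2).1.foldr up
          (lf (upTo n' O) (unpair (parse (t + 1)
            (unpair (enc as W (z ++ fit (List.replicate s true) (unpair w).1))).2).2).1))
            (enc as W (z ++ fit (List.replicate s true) (unpair w).1) ++
              fit (unpair (enc as W (z ++ fit (List.replicate s true) (unpair w).1))).1
                (unpair w).2) = true := by
    intro w
    rw [alt_guess O hk]
    refine and_congr ?_ ?_
    · have h1 : ∀ v : List Bool, Kq (pairBits v (pairBits w (pairBits (List.replicate s true)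
          (pairBits (List.replicate b true) (enc as W z))))) =
          true :: false :: (fit (List.replicate s true) (unpair w).1 ++
            fit (List.replicate b true) v) := by
        intro v
        unfold Kq
        simp only [unpair_pairBits]
      simp only [h1]
      exact forall_fit (fun v => upTo n' O (true :: false ::
        (fit (List.replicate s true) (unpair w).1 ++ v)) = true) (List.replicate b true)
        (List.length_replicate ..) hb
    · set u := fit (List.replicate s true) (unpair w).1 with hu
      have hd : dec (0 + 1) (cv 0 (pairBits w (pairBits (List.replicate s true)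
          (pairBits (List.replicate b true) (enc as W z))))) =
          ((unpair (enc as W (z ++ u))).2, enc as W (z ++ u) ++
            fit (unpair (enc as W (z ++ u))).1 (unpair w).2) := by
        unfold cv
        simp only [unpair_pairBits]
        rw [enc_str, ← hu]
        simp only [dec, unpair_pairBits]
      have h2 := alt_eval (t := t + 1) (upTo n' O) (N + 1) (t + 1) 0 false _ _ _ (by omega) hd
        (fun a ha => has a (hmem2 u a ha))
      rw [Bool.not_false] at h2
      exact h2
  constructor
  · rintro ⟨w, _, h1⟩
    rw [hone w] at h1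
    refine ⟨fit (List.replicate s true) (unpair w).1, by rw [length_fit, List.length_replicate],
      h1.1, ?_⟩
    rw [hlang]
    set u := fit (List.replicate s true) (unpair w).1 with hu
    have h2 := (exists_fit (m := (unpair w).2.length + (unpair (enc as W (z ++ u))).1.length)
      (fun c => ((parse (t + 1) (unpair (enc as W (z ++ u))).2).1.foldr up
          (lf (upTo n' O) (unpair (parse (t + 1) (unpair (enc as W (z ++ u))).2).2).1))
            (enc as W (z ++ u) ++ c) = true) (unpair (enc as W (z ++ u))).1 rfl (by omega)).1
      ⟨(unpair w).2, by omega, h1.2⟩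
    exact h2
  · rintro ⟨u, hu, h1, h2⟩
    rw [hlang] at h2
    obtain ⟨i, hi, h3⟩ := h2
    have hfu : fit (List.replicate s true) u = u :=
      fit_eq (by rw [hu, List.length_replicate])
    refine ⟨pairBits u (bitsOf (unpair (enc as W (z ++ u))).1.length i), ?_, ?_⟩
    · rw [length_pairBits, length_bitsOf, hu]
      exact hw _ (hmem u)
    · rw [hone, unpair_pairBits]
      dsimp only
      rw [hfu]
      refine ⟨h1, ?_⟩
      rw [fit_eq (by rw [length_bitsOf])]
      exact h3

end Pool.Agent.TH683.WS
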