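import Pool.Agent.TH683.WS.Stage
import Pool.Agent.TH683.W1D.Acc

/-! # One stage: the lower bound -/

set_option autoImplicit false

namespace Pool.Agent.TH683.WS

open Pool.Agent.NPC Pool.Agent.H620R2.Gauge Pool.Agent.H591R3.PHG Pool.Agent.H622R2
  Pool.Agent.TH678.HW Pool.Agent.TH678.WP Pool.Agent.TH678.ETH Pool.Agent.H676 Finset H568R2
  MeasureTheory Pool.Agent.W900.IE Pool.Agent.W900.PS
open Pool.Agent.TH680.OD (join)
open Pool.Agent.TH680.SE (wit wit_dep card_strs)
open Pool.Agent.TH680.DT (strs mem_strs)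
open Pool.Agent.TH683.WH (Alt InW InWide tt ow ow_at ow_off xin length_xin qs qs_loc allq card_qs
  qs_sub CoO dtr_run coO_join gW qf_top ber_half)

/-- a biased bit in two steps -/
theorem Ex_val {I : Type} [Fintype I] [DecidableEq I] (n : ℕ) (Φ : (I → Bool) → ℝ) :
    Ex (law1 n) (fun s : I → Option Bool => Ex (ber (1 / 2 ^ (4 * n)))
      (fun z : I → Bool => Φ (val s z))) = Ex (ber (1 / 2 ^ (8 * n))) Φ := by
  have h1 := Ex_prod (I := I) (law1 n) (ber (1 / 2 ^ (4 * n)))
    (fun ω => Φ (fun i => (ω i).1.getD (ω i).2))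
  have hpow : (1 : ℝ) / 2 ^ (8 * n) = 1 / 2 ^ (4 * n) * (1 / 2 ^ (4 * n)) := by
    rw [show 8 * n = 4 * n + 4 * n by ring, pow_add, one_div_mul_one_div]
  have h2 := Ex_push (I := I) (fun a : Option Bool × Bool => a.1.getD a.2)
    (fun a => law1 n a.1 * ber (1 / 2 ^ (4 * n)) a.2) (ber (1 / 2 ^ (8 * n))) (by
      intro b
      rw [Finset.sum_filter, Fintype.sum_prod_type, Fintype.sum_option]
      simp only [Fintype.sum_bool]
      cases b
      · simp only [Option.getD_none, Option.getD_some, law1, ber]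
        simp only [if_true, if_false, Bool.true_eq_false, Bool.false_eq_true]
        rw [hpow]
        ring
      · simp only [Option.getD_none, Option.getD_some, law1, ber]
        simp only [if_true, if_false, Bool.false_eq_true]
        rw [hpow]
        ring) Φ
  rw [← h2, h1]
  rfl

theorem law1_nonneg (n : ℕ) (v : Option Bool) : 0 ≤ law1 n v := by
  have h1 : (1 : ℝ) / 2 ^ (4 * n) ≤ 1 := by
    rw [div_le_one (by positivity)]
    exact one_le_pow₀ (by norm_num)
  have h2 : (0 : ℝ) < 1 / 2 ^ (4 * n) := by positivity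
  rcases v with _ | _ | _
  · exact h2.le
  · show (0 : ℝ) ≤ 1 - 1 / 2 ^ (4 * n)
    linarith
  · exact le_refl (0 : ℝ)

theorem law1_sum (n : ℕ) : ∑ v, law1 n v = 1 := by
  rw [Fintype.sum_option, Fintype.sum_bool]
  simp only [law1]
  ring

theorem law1_inv (n : ℕ) : Inv n (law1 n) := by
  refine inv_of (law1_nonneg n) (law1_sum n) ?_ rfl
  show (1 : ℝ) / 2 ^ (4 * n) = (1 / 2) ^ (8 * n) / (1 / 2 ^ (4 * n))
  rw [one_div_pow, show 8 * n = 4 * n + 4 * n by ring, pow_add]
  field_simp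

theorem CoO.val {I : Type} {O : (I → Bool) → Oracle} (h : CoO O) (s : I → Option Bool) :
    CoO (fun z => O (val s z)) := by
  intro q
  rcases h q with ⟨c, hc⟩ | ⟨i, hi⟩
  · exact Or.inl ⟨c, fun z => hc _⟩
  · rcases hs : s i with _ | b
    · refine Or.inr ⟨i, fun z => (hi _).trans ?_⟩
      show (s i).getD (z i) = z i
      rw [hs]
      rfl
    · refine Or.inl ⟨b, fun z => (hi _).trans ?_⟩
      show (s i).getD (z i) = b
      rw [hs]
      rfl

open Classical in
/-- all the functions differ from the values at the roots -/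
noncomputable def Psi {X : Type} [Fintype X] [DecidableEq X] (cs : List ℕ)
    (g : X → (Idx X cs → Bool) → Bool) (z : Idx X cs → Bool) : ℝ :=
  if ∀ j, g j z ≠ Tr cs z j then (1 : ℝ) else 0

theorem Psi_of {X : Type} [Fintype X] [DecidableEq X] {cs : List ℕ}
    {g : X → (Idx X cs → Bool) → Bool} {z : Idx X cs → Bool} (h : ∀ j, g j z ≠ Tr cs z j) :
    Psi cs g z = 1 := by
  unfold Psi
  rw [if_pos h]

theorem Psi_nonneg {X : Type} [Fintype X] [DecidableEq X] (cs : List ℕ)
    (g : X → (Idx X cs → Bool) → Bool) (z : Idx X cs → Bool) : 0 ≤ Psi cs g z := by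
  unfold Psi
  split_ifs <;> norm_num

theorem ms_val {X : Type} [Fintype X] [DecidableEq X] (t : ℝ) (cs : List ℕ)
    (s : Idx X cs → Option Bool) (g : X → (Idx X cs → Bool) → Bool) :
    Ex (ber t) (fun z => Psi cs g (val s z)) = Ms t cs s (fun j z => g j (val s z)) := by
  unfold Ms Psi
  rfl

/-- **The averaging theorem for biased bits.** -/
theorem biased {X : Type} [Fintype X] [DecidableEq X] {n u D g : ℕ} (hn : 5 ≤ n)
    (hu : 8 * u ≤ n) (hD : 2 ^ (2 * u) * Fintype.card X ≤ D) (k : ℕ) (cs : List ℕ)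
    (hcs : cs.length = k + 1) (m ℓ : ℕ) (F : List Bool → (Idx X cs → Bool) → Bool)
    (hF : ∀ y : List Bool, ∀ s : Idx X cs → Option Bool,
      DTr (2 ^ (2 * u)) (fun z => F y (val s z)))
    (y : X → List Bool) (hy : ∀ j, (y j).length ≤ ℓ) (b : Bool) :
    Ex (ber (1 / 2 ^ (8 * n))) (Psi cs (fun j => QF m F k b (y j))) ≤
      (k * (2 ^ (ℓ + k * (2 * m + 1) + 2) * (1 / 2) ^ (2 ^ (2 * u) + 1)) +
      (1 - 1 / 256) ^ g * (1 + 2 * (1 / 2 ^ (4 * n))) ^ D) +
      Ex (law1 n) (Wt (X := X) (1 / 2 ^ (4 * n)) (1 / 2 ^ (2 * n)) (8 * n * 2 ^ (4 * n)) (1 / 256)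
        D g cs) := by
  rw [← Ex_val]
  have hm : ∀ s : Idx X cs → Option Bool, Ex (ber (1 / 2 ^ (4 * n)))
      (fun z => Psi cs (fun j => QF m F k b (y j)) (val s z)) ≤
      (k * (2 ^ (ℓ + k * (2 * m + 1) + 2) * (1 / 2) ^ (2 ^ (2 * u) + 1)) +
      (1 - 1 / 256) ^ g * (1 + 2 * (1 / 2 ^ (4 * n))) ^ D) +
      Wt (X := X) (1 / 2 ^ (4 * n)) (1 / 2 ^ (2 * n)) (8 * n * 2 ^ (4 * n)) (1 / 256) D g cs s := by
    intro s
    rw [ms_val]
    have h4 := main_ind (g := g) hn hu hD k cs hcs s m ℓ (fun y z => F y (val s z))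
      (fun y _ => hF y s) y hy b
    refine le_trans (le_of_eq ?_) h4
    have h5 : (fun (j : X) (z : Idx X cs → Bool) => QF m F k b (y j) (val s z)) =
        fun j => QF m (fun y z => F y (val s z)) k b (y j) := by
      funext j z
      exact QF_comp m F (fun z => val s z) k b (y j) z
    rw [h5]
  refine (Ex_mono (law1_nonneg n) hm).trans (le_of_eq ?_)
  rw [Ex_add, Ex_const (law1_sum n)]

namespace Sd

variable (d : Sd)

/-- the questions of the first phase -/
def q (Q A : Oracle) : Finset (List Bool) :=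
  (Finset.univ.biUnion fun j : Fin (2 ^ (d.u + 11)) => qs d.MR (join Q A) (pairBits d.π (d.x j))
    (d.MR.p.eval (pairBits d.π (d.x j)).length) []).image List.tail

/-- all possible questions of the first phase -/
def aq : Finset (List Bool) :=
  (Finset.univ.biUnion fun j : Fin (2 ^ (d.u + 11)) => allq d.MR (pairBits d.π (d.x j))
    (d.MR.p.eval (pairBits d.π (d.x j)).length) []).image List.tail

variable {d}

theorem join_agree {Q A A' : Oracle} {S : Finset (List Bool)}
    (h : ∀ z ∈ S.image List.tail, A z = A' z) : ∀ y ∈ S, join Q A y = join Q A' y := by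
  intro y hy
  rcases y with _ | ⟨c, z⟩
  · rfl
  · cases c with
    | false => rfl
    | true => exact h z (Finset.mem_image.2 ⟨true :: z, hy, rfl⟩)

theorem q_loc {Q A A' : Oracle} (h : ∀ z ∈ d.q Q A, A z = A' z) : d.q Q A' = d.q Q A ∧
    ∀ j, d.MR.out (join Q A') (pairBits d.π (d.x j)) =
      d.MR.out (join Q A) (pairBits d.π (d.x j)) := by
  have h1 := join_agree (Q := Q) h
  have h2 : ∀ j, qs d.MR (join Q A') (pairBits d.π (d.x j))
      (d.MR.p.eval (pairBits d.π (d.x j)).length) [] = qs d.MR (join Q A) (pairBits d.π (d.x j))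
      (d.MR.p.eval (pairBits d.π (d.x j)).length) [] ∧
      d.MR.run (join Q A') (pairBits d.π (d.x j))
      (d.MR.p.eval (pairBits d.π (d.x j)).length) [] = d.MR.run (join Q A) (pairBits d.π (d.x j))
      (d.MR.p.eval (pairBits d.π (d.x j)).length) [] := fun j =>
    qs_loc d.MR _ _ _ fun y hy => h1 y (Finset.mem_biUnion.2 ⟨j, Finset.mem_univ _, hy⟩)
  refine ⟨?_, fun j => (h2 j).2⟩
  unfold q
  congr 1
  exact Finset.biUnion_congr rfl fun j _ => (h2 j).1

theorem q_sub (Q A : Oracle) : d.q Q A ⊆ d.aq := by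
  unfold q aq
  refine Finset.image_subset_image fun y hy => ?_
  obtain ⟨j, hj, h1⟩ := Finset.mem_biUnion.1 hy
  exact Finset.mem_biUnion.2 ⟨j, hj, qs_sub _ _ _ _ _ h1⟩

theorem card_q (Q A : Oracle) : (d.q Q A).card ≤
    2 ^ (d.u + 11) * d.MR.p.eval (2 * d.π.length + 1 + d.len) := by
  unfold q
  refine Finset.card_image_le.trans (Finset.card_biUnion_le.trans ?_)
  refine (Finset.sum_le_sum fun j _ => card_qs _ _ _ _ _).trans ?_
  have h1 : ∀ j ∈ (Finset.univ : Finset (Fin (2 ^ (d.u + 11)))),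
      d.MR.p.eval (pairBits d.π (d.x j)).length = d.MR.p.eval (2 * d.π.length + 1 + d.len) := by
    intro j _
    rw [length_pairBits, length_x]
  rw [Finset.sum_congr rfl h1, Finset.sum_const, smul_eq_mul, Finset.card_univ, Fintype.card_fin]

/-- the strings which may be important -/
noncomputable def FF (d : Sd) : Finset (List Bool) := d.aq ∪
  (W1D.bel (d.k * (d.N + 1) + d.h * (d.N + 1) + 1)).toFinset

theorem right_dep (Q : Oracle) : DepO (FF d) (d.Right Q) := by
  intro A A' h hA j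
  obtain ⟨r, h1, h2⟩ := hA j
  have hq : ∀ z ∈ d.q Q A, A z = A' z := fun z hz =>
    h z (Finset.mem_union_left _ (q_sub Q A hz))
  have hjoin : ∀ z : List Bool, z.length ≤ d.k * (d.N + 1) + d.h * (d.N + 1) →
      join Q A z = join Q A' z := by
    intro z hz
    rcases z with _ | ⟨c, z⟩
    · rfl
    · cases c with
      | false => rfl
      | true =>
        refine h z (Finset.mem_union_right _ (List.mem_toFinset.2 (W1D.mem_bel.2 ?_)))
        rw [List.length_cons] at hz
        omega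
  have hu1 : upTo (d.k * (d.N + 1)) (join Q A) = upTo (d.k * (d.N + 1)) (join Q A') :=
    upTo_congr fun z hz => hjoin z (by omega)
  have hu2 : upTo (d.h * (d.N + 1)) (join Q A) = upTo (d.h * (d.N + 1)) (join Q A') :=
    upTo_congr fun z hz => hjoin z (by omega)
  have hT : ∀ t, Tail (MT t) (join Q A) (d.k * (d.N + 1)) d.k =
      Tail (MT t) (join Q A') (d.k * (d.N + 1)) d.k := by
    intro t
    funext y
    unfold Tail
    rw [hu1]
  have hTM : Tail d.M (join Q A) (d.h * (d.N + 1)) d.h =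
      Tail d.M (join Q A') (d.h * (d.N + 1)) d.h := by
    funext y
    unfold Tail
    rw [hu2]
  refine ⟨r, by rw [(q_loc hq).2 j, h1], ?_⟩
  rw [hTM] at h2
  rw [← h2]
  unfold prob
  rw [Set.mem_ofPred_eq, Set.mem_ofPred_eq]
  dsimp only
  have hl : Nat.log 2 (d.x j).length = d.N := by
    rw [length_x]
    rfl
  rw [hl, hT]

/-- the function at the leaves of the quantifiers -/
noncomputable def FL (d : Sd) (Q A : Oracle) (u : List Bool) (G : List Bool → List Bool)
    (y : List Bool) (z : d.J → Bool) : Bool :=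
  open Classical in
  decide (Tail d.M (join Q (ow (d.e u) z A)) (d.h * (d.N + 1)) d.h
    (gW (d.h * (d.N + 1)) (d.g * (d.N + 1)) G d.t y))

theorem FL_dtr (Q A : Oracle) (u : List Bool) (G : List Bool → List Bool) (y : List Bool) {r : ℕ}
    (hr : d.h + 1 ≤ r) (s : d.J → Option Bool) : DTr r (fun z => FL d Q A u G y (val s z)) := by
  classical
  have h1 := dtr_run d.M (gW (d.h * (d.N + 1)) (d.g * (d.N + 1)) G d.t y) (d.h + 1) []
    (fun z : d.J → Bool => upTo (d.h * (d.N + 1)) (join Q (ow (d.e u) (val s z) A)))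
    (CoO.val (coO_join Q A (d.e u) _) s)
  have h2 : (fun z => FL d Q A u G y (val s z)) = fun z => decide (d.M.run
      (upTo (d.h * (d.N + 1)) (join Q (ow (d.e u) (val s z) A)))
      (gW (d.h * (d.N + 1)) (d.g * (d.N + 1)) G d.t y) (d.h + 1) [] =
        some [true]) := by
    funext z
    unfold FL Tail
    congr
  rw [h2]
  exact h1.mono hr

theorem ber_nn' (n : ℕ) (b : Bool) : (0 : ℝ) ≤ ber (1 / 2 ^ n) b := by
  have h1 : (1 : ℝ) / 2 ^ n ≤ 1 := by
    rw [div_le_one (by positivity)]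
    exact one_le_pow₀ (by norm_num)
  have h2 : (0 : ℝ) < 1 / 2 ^ n := by positivity
  unfold ber
  split_ifs
  · exact h2.le
  · linarith

/-- the numbers -/
theorem small (hok : d.Ok) : ((d.t + 1 : ℕ) : ℝ) * (2 ^ ((d.n + 11) +
    (d.t + 1) * (2 * ((d.h + d.g + 1) * (d.N + 1)) + 1) + 2) * (1 / 2) ^ (2 ^ (2 * d.u) + 1)) +
      3 * (1 / 2) ^ (2 ^ d.u) ≤ 1 / 2 := by
  have h1 : ((d.t + 1 : ℕ) : ℝ) ≤ 2 ^ (d.t + 1) := by
    exact_mod_cast (Nat.lt_two_pow_self (n := d.t + 1)).le
  have h2 : ((d.t + 1 : ℕ) : ℝ) * (2 ^ ((d.n + 11) +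
      (d.t + 1) * (2 * ((d.h + d.g + 1) * (d.N + 1)) + 1) + 2) * (1 / 2) ^ (2 ^ (2 * d.u) + 1)) ≤
      1 / 4 := by
    have h3 : (2 : ℝ) ^ ((d.t + 1) + ((d.n + 11) +
        (d.t + 1) * (2 * ((d.h + d.g + 1) * (d.N + 1)) + 1) + 2)) ≤ 2 ^ (2 ^ (2 * d.u) - 1) := by
      apply pow_le_pow_right₀ (by norm_num)
      have := hok.hbig
      omega
    have h4 : (2 : ℝ) ^ (2 ^ (2 * d.u) - 1) * (1 / 2) ^ (2 ^ (2 * d.u) + 1) = 1 / 4 := by
      have h5 : 1 ≤ 2 ^ (2 * d.u) := Nat.one_le_two_pow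
      obtain ⟨m, hm⟩ : ∃ m, 2 ^ (2 * d.u) = m + 1 := ⟨2 ^ (2 * d.u) - 1, by omega⟩
      rw [hm, Nat.add_sub_cancel, show m + 1 + 1 = m + 2 by ring, pow_add, ← mul_assoc, ← mul_pow]
      norm_num
    have h6 : (0 : ℝ) ≤ (1 / 2) ^ (2 ^ (2 * d.u) + 1) := by positivity
    calc ((d.t + 1 : ℕ) : ℝ) * (2 ^ ((d.n + 11) +
          (d.t + 1) * (2 * ((d.h + d.g + 1) * (d.N + 1)) + 1) + 2) * (1 / 2) ^ (2 ^ (2 * d.u) + 1))
        ≤ 2 ^ (d.t + 1) * (2 ^ ((d.n + 11) +
          (d.t + 1) * (2 * ((d.h + d.g + 1) * (d.N + 1)) + 1) + 2) * (1 / 2) ^ (2 ^ (2 * d.u) + 1)) :=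
          mul_le_mul_of_nonneg_right h1 (by positivity)
      _ = 2 ^ ((d.t + 1) + ((d.n + 11) +
          (d.t + 1) * (2 * ((d.h + d.g + 1) * (d.N + 1)) + 1) + 2)) *
            (1 / 2) ^ (2 ^ (2 * d.u) + 1) := by rw [pow_add _ (d.t + 1)]; ring
      _ ≤ 2 ^ (2 ^ (2 * d.u) - 1) * (1 / 2) ^ (2 ^ (2 * d.u) + 1) :=
          mul_le_mul_of_nonneg_right h3 h6
      _ = 1 / 4 := h4
  have h3 : (3 : ℝ) * (1 / 2) ^ (2 ^ d.u) ≤ 1 / 4 := by
    have h4 : 4 ≤ 2 ^ d.u := by
      calc 4 = 2 ^ 2 := by norm_num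
        _ ≤ 2 ^ d.u := Nat.pow_le_pow_right (by norm_num) hok.hu2
    have h5 : ((1 : ℝ) / 2) ^ (2 ^ d.u) ≤ (1 / 2) ^ 4 :=
      pow_le_pow_of_le_one (by norm_num) (by norm_num) h4
    calc (3 : ℝ) * (1 / 2) ^ (2 ^ d.u) ≤ 3 * (1 / 2) ^ 4 := by linarith
      _ ≤ 1 / 4 := by norm_num
  linarith

/-- **A fresh tree cannot be evaluated.** -/
theorem fresh (hok : d.Ok) (Q A : Oracle) {u : List Bool} (hu : u.length = d.s)
    (h1 : A ∈ wit (d.kb u) tt)
    (h2 : ∀ u' : List Bool, u'.length = d.s → u' ≠ u → A ∉ wit (d.kb u') tt)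
    (h3 : ∀ g, d.e u g ∉ d.q Q A) :
    Ex (ber (1 / 2 ^ (8 * d.n))) (fun z : d.J → Bool =>
      Set.indicator (d.Right Q) (fun _ => (1 : ℝ)) (ow (d.e u) z A)) ≤ 1 / 2 := by
  classical
  have he := e_inj hok hu
  have hloc : ∀ z : d.J → Bool, ∀ y ∈ d.q Q A, A y = ow (d.e u) z A y := by
    intro z y hy
    rw [ow_off]
    rintro g rfl
    exact h3 g hy
  have hout : ∀ (z : d.J → Bool) j, d.MR.out (join Q (ow (d.e u) z A)) (pairBits d.π (d.x j)) =
      d.MR.out (join Q A) (pairBits d.π (d.x j)) := fun z => (q_loc (hloc z)).2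
  by_cases hr : ∃ rr : Fin (2 ^ (d.u + 11)) → List Bool,
      ∀ j, d.MR.out (join Q A) (pairBits d.π (d.x j)) = some (rr j)
  · obtain ⟨rr, hrr⟩ := hr
    set G : List Bool → List Bool := fun y =>
      if h : ∃ j : Fin (2 ^ (d.u + 11)), bitsOf (d.n + 11) j.val = y then rr h.choose else []
      with hG
    have hGj : ∀ j : Fin (2 ^ (d.u + 11)), G (bitsOf (d.n + 11) j.val) = rr j := by
      intro j
      have hex : ∃ j' : Fin (2 ^ (d.u + 11)), bitsOf (d.n + 11) j'.val =
        bitsOf (d.n + 11) j.val := ⟨j, rfl⟩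
      rw [hG]
      dsimp only
      rw [dif_pos hex]
      congr 1
      have h4 : 2 ^ (d.u + 11) ≤ 2 ^ (d.n + 11) :=
        Nat.pow_le_pow_right (by norm_num) (by have := hok.hu; omega)
      exact Fin.ext (bitsOf_inj (lt_of_lt_of_le hex.choose.2 h4) (lt_of_lt_of_le j.2 h4)
        hex.choose_spec)
    have hlen2 : (pw d.as).length = (d.t + 1) + 1 := by
      rw [pw, List.length_map]
      exact hok.hlen
    have hcard : 2 ^ (2 * d.u) * Fintype.card (Fin (2 ^ (d.u + 11))) ≤ 2 ^ (3 * d.u + 11) := by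
      rw [Fintype.card_fin, ← pow_add]
      exact Nat.pow_le_pow_right (by norm_num) (by omega)
    have hf := final_numbers hok.hn hok.hu
    have hl := hok.hlaw
    have hsm := small hok
    have hm := biased (X := Fin (2 ^ (d.u + 11))) (n := d.n) (u := d.u)
      (D := 2 ^ (3 * d.u + 11)) (g := 2 ^ (d.u + 9)) hok.hn hok.hu hcard (d.t + 1) (pw d.as)
      hlen2 ((d.h + d.g + 1) * (d.N + 1)) (d.n + 11) (FL d Q A u G)
      (fun y s => FL_dtr Q A u G y hok.hh s) (fun j => bitsOf (d.n + 11) j.val)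
      (fun j => (length_bitsOf _ _).le) true
    refine le_trans (Ex_mono (ber_nn' _) (fun z => ?_)) (hm.trans ?_)
    · by_cases hz : ow (d.e u) z A ∈ d.Right Q
      · rw [Set.indicator_of_mem hz]
        refine le_of_eq (Psi_of (fun j => ?_)).symm
        obtain ⟨r, h4, h5⟩ := hz j
        rw [hout, hrr j] at h4
        have hrj : r = rr j := (Option.some.inj h4).symm
        subst hrj
        have h6 := qf_top (m := (d.h + d.g + 1) * (d.N + 1)) (m₁ := d.h * (d.N + 1))
          (m₂ := d.g * (d.N + 1)) (t := d.t) (Nat.mul_le_mul_right _ (by omega))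
          (Nat.mul_le_mul_right _ (by omega)) G
          (fun (z : d.J → Bool) y => Tail d.M (join Q (ow (d.e u) z A)) (d.h * (d.N + 1)) d.h y)
          (bitsOf (d.n + 11) j.val) z
        rw [hGj] at h6
        have h7 : QF ((d.h + d.g + 1) * (d.N + 1)) (FL d Q A u G) (d.t + 1) true
            (bitsOf (d.n + 11) j.val) z = true ↔ (d.x j, d.k) ∈ prob d.t
              (join Q (ow (d.e u) z A)) := h6.trans h5.symm
        have h8 : (d.x j, d.k) ∈ prob d.t (join Q (ow (d.e u) z A)) ↔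
            Tr (pw d.as) z j = false := by
          rw [x_iff hok]
          have hkey : ∀ u' : List Bool, ow (d.e u) z A ∈ wit (d.kb u') tt ↔
              A ∈ wit (d.kb u') tt := by
            intro u'
            refine forall₂_congr fun y hy => ?_
            rw [ow_off]
            intro g hg
            rw [← hg] at hy
            exact e_notMem u u' g hy
          have htr : (fun g => ow (d.e u) z A (d.e u g)) = z := by
            funext g
            exact ow_at he z A g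
          constructor
          · rintro ⟨u', hu', h9, h10⟩
            rw [hkey] at h9
            have h11 : u' = u := by
              by_contra hne
              exact h2 u' hu' hne h9
            subst h11
            rw [htr] at h10
            exact h10
          · intro h9
            exact ⟨u, hu, (hkey u).2 h1, by rw [htr]; exact h9⟩
        intro h9
        rw [h9] at h7
        have h10 := h7.trans h8
        cases h11 : Tr (pw d.as) z j <;> rw [h11] at h10 <;> simp at h10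
      · rw [Set.indicator_of_notMem hz]
        exact Psi_nonneg _ _ _
    · linarith
  · have hz : ∀ z : d.J → Bool,
        Set.indicator (d.Right Q) (fun _ => (1 : ℝ)) (ow (d.e u) z A) = 0 := by
      intro z
      apply Set.indicator_of_notMem
      intro hR
      apply hr
      have h4 : ∀ j, ∃ r, d.MR.out (join Q A) (pairBits d.π (d.x j)) = some r := by
        intro j
        obtain ⟨r, h5, _⟩ := hR j
        exact ⟨r, by rw [← hout z j, h5]⟩
      choose rr hrr using h4
      exact ⟨rr, hrr⟩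
    unfold Ex
    rw [Finset.sum_eq_zero (fun z _ => mul_eq_zero_of_right _ (hz z))]
    norm_num

/-- **One stage.** -/
theorem stage_bound (hok : d.Ok) (p : List Bool → unitInterval)
    (hp : ∀ z, (p (false :: z) : ℝ) = 1 / 2)
    (hp2 : ∀ n z, (p (true :: pairBits (List.replicate n true) z) : ℝ) = 1 / 2 ^ n)
    (Q : Oracle) {C : Set Oracle} {D : Finset (List Bool)} (hC : DepO D C)
    (hD : ∀ z ∈ D, z.length < d.n) :
    (indep p).real (C ∩ d.Right Q) ≤ 15 / 16 * (indep p).real C := by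
  have hs1 := hok.hs1
  refine stage p (J := d.J) hC (right_dep Q) (strs d.s) d.kb d.e
    (fun u hu => e_inj hok (mem_strs.1 hu)) (fun u _ u' _ g => e_notMem u u' g)
    (fun u hu u' hu' hne => kb_disj (mem_strs.1 hu) (mem_strs.1 hu') hne)
    (fun u hu u' hu' hne g g' => e_ne (mem_strs.1 hu) (mem_strs.1 hu') hne g g')
    (fun u hu => ?_) (fun u hu g hg => ?_) (fun u hu => kb_card hok u) (card_strs d.s)
    (fun u hu z hz => ?_) (ρ := 1 / 2 ^ (8 * d.n)) (fun u hu g => hp2 _ _) (d.q Q)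
    (fun A A' h => (q_loc h).1) (F := d.aq) (fun A A' h => (q_loc fun z hz =>
      h z (q_sub Q A hz)).1) (card_q Q) hok.hT (fun u hu A h1 h2 h3 => ?_)
  · rw [Finset.disjoint_left]
    intro y hy hy'
    have h1 := hD y hy
    have h2 := kb_len (mem_strs.1 hu) hy'
    omega
  · have h1 := hD _ hg
    have h2 := e_len (mem_strs.1 hu) g
    omega
  · obtain ⟨v, _, rfl⟩ := Finset.mem_image.1 hz
    exact hp _
  · exact fresh hok Q A (mem_strs.1 hu) h1 (fun u' hu' hne => h2 u' (mem_strs.2 hu') hne) h3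

end Sd

end Pool.Agent.TH683.WS
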