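import Pool.Agent.TH683.WH.Prob

/-! # Stages with a hidden key: random bits of arbitrary bias -/

set_option autoImplicit false

namespace Pool.Agent.TH683.WS

open Pool.Agent.NPC Pool.Agent.H620R2.Gauge Pool.Agent.H591R3.PHG MeasureTheory ProbabilityTheory
  Finset Pool.Agent.W900.IE Pool.Agent.W900.PS Pool.Agent.H622R2 Pool.Agent.W900 Pool.Agent.TH680
  H568R2
open Pool.Agent.TH680.SE (wit wit_dep setT real_match count_real pair_prob card_bad)
open Pool.Agent.TH683.WH (ow ow_at ow_off ow_self ber_half tt count_le)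

theorem count_lew {Ω ι : Type} [MeasurableSpace Ω] (μ : Measure Ω) [IsProbabilityMeasure μ]
    (W : Finset ι) (H : ι → Set Ω) (hH : ∀ i ∈ W, MeasurableSet (H i)) (c : ι → ℝ) {E : Set Ω}
    (hE : MeasurableSet E) (k : ℝ)
    (h : ∀ ω, ∑ i ∈ W, c i * Set.indicator (H i) (fun _ => (1 : ℝ)) ω ≤
      k * Set.indicator E (fun _ => (1 : ℝ)) ω) :
    ∑ i ∈ W, c i * μ.real (H i) ≤ k * μ.real E := by
  have h1 : ∫ ω, ∑ i ∈ W, c i * Set.indicator (H i) (fun _ => (1 : ℝ)) ω ∂μ ≤
      ∫ ω, k * Set.indicator E (fun _ => (1 : ℝ)) ω ∂μ := by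
    apply integral_mono
      (integrable_finsetSum _ fun i hi => (SE.intble_ind μ (hH i hi)).const_mul (c i))
      ((SE.intble_ind μ hE).const_mul k)
    exact h
  rw [integral_const_mul, SE.int_ind μ hE,
    integral_finsetSum _ fun i hi => (SE.intble_ind μ (hH i hi)).const_mul (c i)] at h1
  refine le_trans (le_of_eq ?_) h1
  exact Finset.sum_congr rfl fun i hi => by
    rw [integral_const_mul, SE.int_ind μ (hH i hi)]

variable (p : List Bool → unitInterval)

/-- **The bits of a block may be drawn again.** -/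
theorem av {J : Type} [Fintype J] [DecidableEq J] {e : J → List Bool}
    (he : Function.Injective e) {ρ : ℝ} (hp : ∀ j, (p (e j) : ℝ) = ρ) {G R : Set Oracle}
    {DG DR : Finset (List Bool)} (hG : DepO DG G) (hR : DepO DR R)
    (hdis : ∀ j, e j ∉ DG) {c : ℝ}
    (h : ∀ A ∈ G, Ex (ber ρ) (fun z : J → Bool =>
      Set.indicator R (fun _ => (1 : ℝ)) (ow e z A)) ≤ c) :
    (indep p).real (G ∩ R) ≤ c * (indep p).real G := by
  classical
  set B : Finset (List Bool) := Finset.univ.image e with hB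
  have hmB : ∀ y, y ∈ B ↔ ∃ j, e j = y := by
    intro y
    rw [hB, Finset.mem_image]
    simp
  set Hz : (J → Bool) → Set Oracle := fun z => {A | A ∈ G ∧ ow e z A ∈ R} with hHz
  set Wz : (J → Bool) → Set Oracle := fun z => wit B (ow e z (fun _ => false)) with hWz
  have hmW : ∀ z A, A ∈ Wz z ↔ ∀ j, A (e j) = z j := by
    intro z A
    constructor
    · intro h1 j
      have h2 := h1 (e j) ((hmB _).2 ⟨j, rfl⟩)
      rw [h2, ow_at he]
    · intro h1 y hy
      obtain ⟨j, rfl⟩ := (hmB y).1 hy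
      rw [h1, ow_at he]
  have hHd : ∀ z, DepO (DG ∪ (DR \ B)) (Hz z) := by
    intro z A A' h1 h2
    refine ⟨hG A A' (fun y hy => h1 y (Finset.mem_union_left _ hy)) h2.1, ?_⟩
    refine hR _ _ (fun y hy => ?_) h2.2
    by_cases hyB : ∃ j, e j = y
    · obtain ⟨j, rfl⟩ := hyB
      rw [ow_at he, ow_at he]
    · have h3 := h1 y (Finset.mem_union_right _ (Finset.mem_sdiff.2 ⟨hy, fun h4 =>
        hyB ((hmB y).1 h4)⟩))
      push Not at hyB
      rw [ow_off hyB, ow_off hyB, h3]
  have hdis2 : Disjoint (DG ∪ (DR \ B)) B := by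
    rw [Finset.disjoint_left]
    intro y hy hyB
    rcases Finset.mem_union.1 hy with h1 | h1
    · obtain ⟨j, rfl⟩ := (hmB y).1 hyB
      exact hdis j h1
    · exact (Finset.mem_sdiff.1 h1).2 hyB
  have hmul : ∀ z, (indep p).real (Hz z ∩ Wz z) =
      (∏ j, ber ρ (z j)) * (indep p).real (Hz z) := by
    intro z
    rw [hWz]
    rw [real_match p (hHd z) _ B hdis2, mul_comm]
    congr 1
    rw [hB, Finset.prod_image (fun j _ j' _ hjj => he hjj)]
    exact Finset.prod_congr rfl fun j _ => by rw [ow_at he, hp]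
  have hsub : G ∩ R ⊆ ⋃ z ∈ (Finset.univ : Finset (J → Bool)), (Hz z ∩ Wz z) := by
    rintro A ⟨h1, h2⟩
    refine Set.mem_iUnion₂.2 ⟨fun j => A (e j), Finset.mem_univ _, ⟨h1, ?_⟩, ?_⟩
    · rw [ow_self he (fun _ => rfl)]
      exact h2
    · exact (hmW _ _).2 fun _ => rfl
  have h1 := (measureReal_mono (μ := indep p) hsub (measure_ne_top _ _)).trans
    (measureReal_biUnion_finset_le _ _)
  rw [Finset.sum_congr rfl (fun z _ => hmul z)] at h1
  refine h1.trans ?_
  refine count_lew (indep p) (Finset.univ : Finset (J → Bool)) Hz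
    (fun z _ => (hHd z).measurable) (fun z => ∏ j, ber ρ (z j)) hG.measurable c ?_
  intro A
  by_cases hA : A ∈ G
  · rw [Set.indicator_of_mem hA, mul_one]
    refine le_trans (le_of_eq ?_) (h A hA)
    unfold Ex
    refine Finset.sum_congr rfl fun z _ => ?_
    congr 1
    show Set.indicator (Hz z) (fun _ => (1 : ℝ)) A = Set.indicator R (fun _ => (1 : ℝ)) (ow e z A)
    by_cases h5 : ow e z A ∈ R
    · rw [Set.indicator_of_mem h5, Set.indicator_of_mem (show A ∈ Hz z from ⟨hA, h5⟩)]
    · rw [Set.indicator_of_notMem h5, Set.indicator_of_notMem (fun h6 : A ∈ Hz z => h5 h6.2)]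
  · rw [Set.indicator_of_notMem hA, mul_zero]
    refine le_of_eq (Finset.sum_eq_zero fun z _ => ?_)
    rw [Set.indicator_of_notMem (fun h6 : A ∈ Hz z => hA h6.1), mul_zero]

/-- **One stage.** -/
theorem stage {J : Type} [Fintype J] [DecidableEq J] {C R : Set Oracle} {D DR : Finset (List Bool)} (hC : DepO D C) (hR : DepO DR R)
    (U : Finset (List Bool)) (kb : List Bool → Finset (List Bool)) (e : List Bool → J → List Bool)
    (he : ∀ u ∈ U, Function.Injective (e u)) (hke : ∀ u ∈ U, ∀ u' ∈ U, ∀ j, e u j ∉ kb u')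
    (hkk : ∀ u ∈ U, ∀ u' ∈ U, u ≠ u' → Disjoint (kb u) (kb u'))
    (hee : ∀ u ∈ U, ∀ u' ∈ U, u ≠ u' → ∀ j j', e u j ≠ e u' j')
    (hDk : ∀ u ∈ U, Disjoint D (kb u)) (hDe : ∀ u ∈ U, ∀ j, e u j ∉ D) {s : ℕ}
    (hs : ∀ u ∈ U, (kb u).card = s + 1) (hU : U.card = 2 ^ s)
    (hpk : ∀ u ∈ U, ∀ z ∈ kb u, (p z : ℝ) = 1 / 2) {ρ : ℝ}
    (hpe : ∀ u ∈ U, ∀ j, (p (e u j) : ℝ) = ρ)
    (q : Oracle → Finset (List Bool)) (hq : ∀ A A' : Oracle, (∀ z ∈ q A, A z = A' z) → q A' = q A)
    {F : Finset (List Bool)} (hF : ∀ A A' : Oracle, (∀ z ∈ F, A z = A' z) → q A' = q A)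
    {T : ℕ} (hT : ∀ A, (q A).card ≤ T) (hTs : 4 * T ≤ 2 ^ s)
    (hst : ∀ u ∈ U, ∀ A, A ∈ wit (kb u) tt → (∀ u' ∈ U, u' ≠ u → A ∉ wit (kb u') tt) →
      (∀ j, e u j ∉ q A) → Ex (ber ρ) (fun z : J → Bool =>
        Set.indicator R (fun _ => (1 : ℝ)) (ow (e u) z A)) ≤ 1 / 2) :
    (indep p).real (C ∩ R) ≤ 15 / 16 * (indep p).real C := by
  classical
  set π : ℝ := (1 / 2) ^ (s + 1) with hπ
  have hπ0 : 0 ≤ π := by positivity
  have hUπ : (U.card : ℝ) * π = 1 / 2 := by
    rw [hU, hπ, pow_succ]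
    push_cast
    rw [← mul_assoc, ← mul_pow]
    norm_num
  have hTπ : (T : ℝ) * π ≤ 1 / 8 := by
    have h1 : (4 * T : ℝ) ≤ 2 ^ s := by exact_mod_cast hTs
    have h2 : (4 * T : ℝ) * π ≤ 2 ^ s * π := mul_le_mul_of_nonneg_right h1 hπ0
    have h3 : (2 : ℝ) ^ s * π = 1 / 2 := by
      rw [← hUπ, hU]
      push_cast
      rfl
    rw [h3] at h2
    linarith
  have hC0 : (0 : ℝ) ≤ (indep p).real C := measureReal_nonneg
  have hprod : ∀ u ∈ U, ∏ z ∈ kb u, ber (p z) (tt z) = π := by
    intro u hu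
    rw [Finset.prod_congr rfl (fun z hz => ber_half (hpk u hu z hz) _), Finset.prod_const, hs u hu]
  -- blocks
  set te : List Bool → Finset (List Bool) := fun u => Finset.univ.image (e u) with hte
  have hmte : ∀ u y, y ∈ te u ↔ ∃ j, e u j = y := by
    intro u y
    rw [hte, Finset.mem_image]
    simp
  set blk : List Bool → Finset (List Bool) := fun u => kb u ∪ te u with hblk
  have hsep : ∀ u ∈ U, ∀ u' ∈ U, u ≠ u' → Disjoint (blk u) (blk u') := by
    intro u hu u' hu' hne
    rw [Finset.disjoint_left]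
    intro y hy hy'
    rcases Finset.mem_union.1 hy with h1 | h1 <;> rcases Finset.mem_union.1 hy' with h2 | h2
    · exact Finset.disjoint_left.1 (hkk u hu u' hu' hne) h1 h2
    · obtain ⟨j, rfl⟩ := (hmte u' y).1 h2
      exact hke u' hu' u hu j h1
    · obtain ⟨j, rfl⟩ := (hmte u y).1 h1
      exact hke u hu u' hu' j h2
    · obtain ⟨j, rfl⟩ := (hmte u y).1 h1
      obtain ⟨j', h3⟩ := (hmte u' _).1 h2
      exact hee u hu u' hu' hne j j' h3.symm
  have hDblk : ∀ u ∈ U, Disjoint D (blk u) := by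
    intro u hu
    rw [Finset.disjoint_left]
    intro y hy hy'
    rcases Finset.mem_union.1 hy' with h2 | h2
    · exact Finset.disjoint_left.1 (hDk u hu) hy h2
    · obtain ⟨j, rfl⟩ := (hmte u y).1 h2
      exact hDe u hu j hy
  -- the events
  set Uu : List Bool → Set Oracle := fun u =>
    {A | A ∈ C ∧ A ∈ wit (kb u) tt ∧ ∀ u' ∈ U, u' ≠ u → A ∉ wit (kb u') tt} with hUu
  set Tc : List Bool → Set Oracle := fun u => {A | ¬ Disjoint (q A) (blk u)} with hTc
  have hUd : ∀ u ∈ U, DepO (D ∪ U.biUnion kb) (Uu u) := by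
    intro u hu A A' h1 h2
    refine ⟨hC A A' (fun z hz => h1 z (Finset.mem_union_left _ hz)) h2.1, ?_, ?_⟩
    · intro z hz
      rw [← h1 z (Finset.mem_union_right _ (Finset.mem_biUnion.2 ⟨u, hu, hz⟩))]
      exact h2.2.1 z hz
    · intro u' hu' hne hcon
      refine h2.2.2 u' hu' hne fun z hz => ?_
      rw [h1 z (Finset.mem_union_right _ (Finset.mem_biUnion.2 ⟨u', hu', hz⟩))]
      exact hcon z hz
  have hTd : ∀ u ∈ U, DepO ((D ∪ F) \ blk u) (C ∩ Tc u) := by
    intro u hu A A' h1 h2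
    set A'' : Oracle := fun z => if z ∈ blk u then A z else A' z with hA''
    have e1 : ∀ z ∈ D ∪ F, A z = A'' z := by
      intro z hz
      rw [hA'']
      dsimp only
      split_ifs with h3
      · rfl
      · exact h1 z (Finset.mem_sdiff.2 ⟨hz, h3⟩)
    refine ⟨hC A A' (fun z hz => h1 z (Finset.mem_sdiff.2 ⟨Finset.mem_union_left _ hz,
      Finset.disjoint_left.1 (hDblk u hu) hz⟩)) h2.1, fun hcon => h2.2 ?_⟩
    have h4 : q A'' = q A := hF A A'' fun z hz => e1 z (Finset.mem_union_right _ hz)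
    have h5 : q A'' = q A' := hq A' A'' fun z hz => by
      rw [hA'']
      dsimp only
      rw [if_neg (Finset.disjoint_left.1 hcon hz)]
    rw [← h4, h5]
    exact hcon
  have hTT : DepO F (fun A => True) := fun _ _ _ h => h
  have hTm : ∀ u ∈ U, MeasurableSet (Tc u) := by
    intro u hu
    have h1 : DepO F (Tc u) := by
      intro A A' h1 h2 hcon
      apply h2
      rw [← hF A A' h1]
      exact hcon
    exact h1.measurable
  -- the probability of the key
  have e1 : ∀ u ∈ U, (indep p).real C * π / 2 ≤ (indep p).real (Uu u) := by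
    intro u hu
    have h1 : C ∩ wit (kb u) tt ⊆ Uu u ∪ ⋃ u' ∈ U.erase u,
        (C ∩ (wit (kb u) tt ∩ wit (kb u') tt)) := by
      rintro A ⟨h1, h2⟩
      by_cases h3 : ∃ u' ∈ U, u' ≠ u ∧ A ∈ wit (kb u') tt
      · obtain ⟨u', h4, h5, h6⟩ := h3
        exact Or.inr (Set.mem_iUnion₂.2 ⟨u', Finset.mem_erase.2 ⟨h5, h4⟩, h1, h2, h6⟩)
      · push Not at h3
        exact Or.inl ⟨h1, h2, h3⟩
    have h2 := (measureReal_mono (μ := indep p) h1 (measure_ne_top _ _)).trans
      (measureReal_union_le _ _)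
    have h3 : (indep p).real (⋃ u' ∈ U.erase u, (C ∩ (wit (kb u) tt ∩ wit (kb u') tt))) ≤
        (indep p).real C * π / 2 := by
      refine (measureReal_biUnion_finset_le _ _).trans ?_
      have h4 : ∀ u' ∈ U.erase u, (indep p).real (C ∩ (wit (kb u) tt ∩ wit (kb u') tt)) =
          (indep p).real C * (π * π) := by
        intro u' hu'
        obtain ⟨h5, h6⟩ := Finset.mem_erase.1 hu'
        rw [pair_prob p hC (hDk u hu) (hDk u' h6) (hkk u hu u' h6 h5.symm), hprod u hu,
          hprod u' h6]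
      rw [Finset.sum_congr rfl h4, Finset.sum_const, nsmul_eq_mul]
      have h7 : ((U.erase u).card : ℝ) ≤ U.card := by
        exact_mod_cast Finset.card_le_card (Finset.erase_subset _ _)
      calc ((U.erase u).card : ℝ) * ((indep p).real C * (π * π))
          ≤ U.card * ((indep p).real C * (π * π)) :=
            mul_le_mul_of_nonneg_right h7 (by positivity)
        _ = (indep p).real C * π * (U.card * π) := by ring
        _ = _ := by rw [hUπ]; ring
    have h8 : (indep p).real (C ∩ wit (kb u) tt) = (indep p).real C * π := by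
      rw [real_match p hC tt (kb u) (hDk u hu), hprod u hu]
    rw [h8] at h2
    linarith
  -- the touched keys
  have e2 : ∑ u ∈ U, (indep p).real (C ∩ Tc u) ≤ T * (indep p).real C := by
    refine count_le (indep p) U (fun u => C ∩ Tc u)
      (fun u hu => hC.measurable.inter (hTm u hu)) hC.measurable T ?_
    intro A
    by_cases hA : A ∈ C
    · rw [Set.indicator_of_mem hA, mul_one]
      have h1 : ∀ u ∈ U, Set.indicator (C ∩ Tc u) (fun _ => (1 : ℝ)) A =
          if ¬ Disjoint (q A) (blk u) then 1 else 0 := by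
        intro u _
        by_cases h2 : Disjoint (q A) (blk u)
        · rw [if_neg (not_not.2 h2), Set.indicator_of_notMem (fun h3 => h3.2 h2)]
        · rw [if_pos h2, Set.indicator_of_mem (show A ∈ C ∩ Tc u from ⟨hA, h2⟩)]
      rw [Finset.sum_congr rfl h1, ← Finset.sum_filter, Finset.sum_const, nsmul_eq_mul, mul_one]
      exact_mod_cast (card_bad hsep).trans (hT A)
    · rw [Set.indicator_of_notMem hA, mul_zero]
      exact le_of_eq (Finset.sum_eq_zero fun u _ => Set.indicator_of_notMem (fun h3 => hA h3.1) _)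
  have e3 : ∀ u ∈ U, (indep p).real ((C ∩ Tc u) ∩ wit (kb u) tt) =
      (indep p).real (C ∩ Tc u) * π := by
    intro u hu
    rw [real_match p (hTd u hu) tt (kb u), hprod u hu]
    exact Finset.disjoint_of_subset_right Finset.subset_union_left Finset.sdiff_disjoint
  set Gu : List Bool → Set Oracle := fun u => Uu u \ Tc u with hGu
  have e4 : ∀ u ∈ U, (indep p).real C * π / 2 - (indep p).real (C ∩ Tc u) * π ≤
      (indep p).real (Gu u) := by
    intro u hu
    have h1 : Uu u ⊆ Gu u ∪ ((C ∩ Tc u) ∩ wit (kb u) tt) := by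
      intro A hA
      by_cases h2 : A ∈ Tc u
      · exact Or.inr ⟨⟨hA.1, h2⟩, hA.2.1⟩
      · exact Or.inl ⟨hA, h2⟩
    have h2 := (measureReal_mono (μ := indep p) h1 (measure_ne_top _ _)).trans
      (measureReal_union_le _ _)
    rw [e3 u hu] at h2
    have h3 := e1 u hu
    linarith
  have e5 : (indep p).real C / 8 ≤ ∑ u ∈ U, (indep p).real (Gu u) := by
    have h1 := Finset.sum_le_sum e4
    rw [Finset.sum_sub_distrib, Finset.sum_const, nsmul_eq_mul, ← Finset.sum_mul] at h1
    have h2 := mul_le_mul_of_nonneg_right e2 hπ0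
    have h3 : (U.card : ℝ) * ((indep p).real C * π / 2) = (indep p).real C / 4 := by
      calc (U.card : ℝ) * ((indep p).real C * π / 2) = (indep p).real C / 2 * (U.card * π) := by
            ring
        _ = _ := by rw [hUπ]; ring
    have h4 : T * (indep p).real C * π ≤ (indep p).real C / 8 := by
      calc T * (indep p).real C * π = (indep p).real C * (T * π) := by ring
        _ ≤ (indep p).real C * (1 / 8) := mul_le_mul_of_nonneg_left hTπ hC0
        _ = _ := by ring
    rw [h3] at h1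
    linarith
  -- no dependence on the tree
  have hGd : ∀ u ∈ U, DepO (((D ∪ F) ∪ U.biUnion kb) \ te u) (Gu u) := by
    intro u hu A A' h1 h2
    set A'' : Oracle := fun z => if z ∈ te u then A z else A' z with hA''
    have hag : ∀ z, z ∈ (D ∪ F) ∪ U.biUnion kb → z ∉ te u → A z = A' z := fun z hz hz' =>
      h1 z (Finset.mem_sdiff.2 ⟨hz, hz'⟩)
    have hkt : ∀ u' ∈ U, ∀ z ∈ kb u', z ∉ te u := by
      intro u' hu' z hz hz'
      obtain ⟨j, rfl⟩ := (hmte u z).1 hz'
      exact hke u hu u' hu' j hz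
    have hDt : ∀ z ∈ D, z ∉ te u := by
      intro z hz hz'
      obtain ⟨j, rfl⟩ := (hmte u z).1 hz'
      exact hDe u hu j hz
    refine ⟨⟨hC A A' (fun z hz => hag z (Finset.mem_union_left _ (Finset.mem_union_left _ hz))
      (hDt z hz)) h2.1.1, ?_, ?_⟩, ?_⟩
    · intro z hz
      rw [← hag z (Finset.mem_union_right _ (Finset.mem_biUnion.2 ⟨u, hu, hz⟩)) (hkt u hu z hz)]
      exact h2.1.2.1 z hz
    · intro u' hu' hne hcon
      refine h2.1.2.2 u' hu' hne fun z hz => ?_
      rw [hag z (Finset.mem_union_right _ (Finset.mem_biUnion.2 ⟨u', hu', hz⟩))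
        (hkt u' hu' z hz)]
      exact hcon z hz
    · intro hcon
      apply hcon
      have h2' : Disjoint (q A) (blk u) := not_not.1 h2.2
      have h4 : q A'' = q A := hF A A'' fun z hz => by
        rw [hA'']
        dsimp only
        split_ifs with h3
        · rfl
        · exact hag z (Finset.mem_union_left _ (Finset.mem_union_right _ hz)) h3
      have h5 : q A' = q A'' := hq A'' A' fun z hz => by
        rw [hA'']
        dsimp only
        rw [h4] at hz
        rw [if_neg (fun h6 => Finset.disjoint_left.1 h2' hz (Finset.mem_union_right _ h6))]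
      rw [h5, h4]
      exact h2'
  have e6 : ∀ u ∈ U, (indep p).real (Gu u ∩ R) ≤ 1 / 2 * (indep p).real (Gu u) := by
    intro u hu
    refine av p (he u hu) (hpe u hu) (hGd u hu) hR (fun j hj => ?_) (fun A hA => ?_)
    · exact (Finset.mem_sdiff.1 hj).2 ((hmte u _).2 ⟨j, rfl⟩)
    · have h2' : Disjoint (q A) (blk u) := not_not.1 hA.2
      refine hst u hu A hA.1.2.1 hA.1.2.2 fun j hj => ?_
      exact Finset.disjoint_left.1 h2' hj (Finset.mem_union_right _ ((hmte u _).2 ⟨j, rfl⟩))
  have hGm : ∀ u ∈ U, MeasurableSet (Gu u) := fun u hu => (hGd u hu).measurable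
  have e7 : ∑ u ∈ U, (indep p).real (Gu u \ R) ≤ (indep p).real (C \ R) := by
    rw [← measureReal_biUnion_finset]
    · refine measureReal_mono ?_ (measure_ne_top _ _)
      intro A hA
      obtain ⟨u, _, h1, h2⟩ := Set.mem_iUnion₂.1 hA
      exact ⟨h1.1.1, h2⟩
    · intro u hu u' hu' hne
      rw [Function.onFun, Set.disjoint_left]
      intro A h1 h2
      exact h1.1.1.2.2 u' hu' (Ne.symm hne) h2.1.1.2.1
    · intro u hu
      exact (hGm u hu).diff hR.measurable
  have e8 : ∀ u ∈ U, (indep p).real (Gu u \ R) = (indep p).real (Gu u) -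
      (indep p).real (Gu u ∩ R) := by
    intro u hu
    have h1 := measureReal_inter_add_sdiff (μ := indep p) (s := Gu u) hR.measurable
      (measure_ne_top _ _)
    linarith
  have e9 : (indep p).real C / 16 ≤ (indep p).real (C \ R) := by
    refine le_trans ?_ e7
    rw [Finset.sum_congr rfl e8, Finset.sum_sub_distrib]
    have h1 := Finset.sum_le_sum e6
    rw [← Finset.mul_sum] at h1
    linarith
  have h1 := measureReal_inter_add_sdiff (μ := indep p) (s := C) hR.measurable
    (measure_ne_top _ _)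
  linarith

end Pool.Agent.TH683.WS
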