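import Pool.Agent.TH683.WH.Stage
import Pool.Agent.TH683.WS.Lang
import Pool.Agent.TH683.WS.Prob

/-! # One stage -/

set_option autoImplicit false

namespace Pool.Agent.TH683.WS

open Pool.Agent.NPC Pool.Agent.H620R2.Gauge Pool.Agent.H591R3.PHG Pool.Agent.H622R2
  Pool.Agent.TH678.HW Pool.Agent.TH678.WP Pool.Agent.TH678.ETH Pool.Agent.H676 Finset H568R2
  MeasureTheory Pool.Agent.W900.IE Pool.Agent.W900.PS
open Pool.Agent.TH680.OD (join)
open Pool.Agent.TH680.SE (wit card_strs)
open Pool.Agent.TH680.DT (strs mem_strs)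
open Pool.Agent.TH683.WH (Alt InW InWide tt ow ow_at ow_off xin length_xin)
open Pool.Agent.TH683.WH.Sd (addr_take)
open Pool.Agent.H591R3.PHG.LangTrAux (Tr_addr length_addr addr_inj)

/-- the data of a stage -/
structure Sd where
  /-- the number of quantifiers of the algorithms, minus one -/
  t : ℕ
  /-- the size of the tree -/
  n : ℕ
  /-- the bound for the questions -/
  u : ℕ
  /-- the parameter -/
  k : ℕ
  /-- the length of the keys -/
  s : ℕ
  /-- the number of bits of an index -/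
  b : ℕ
  /-- the sizes of the levels -/
  as : List ℕ
  /-- the algorithm for the first phase -/
  MR : Alg
  /-- the algorithm for the second phase -/
  M : Alg
  /-- the precomputed string -/
  π : List Bool
  /-- the bound for the parameter -/
  h : ℕ
  /-- the bound for the further quantifiers -/
  g : ℕ

namespace Sd

variable (d : Sd)

/-- the inputs -/
def x (j : Fin (2 ^ (d.u + 11))) : List Bool :=
  xin d.s d.b (2 ^ (64 * d.n)) (enc d.as (8 * d.n) (bitsOf (d.n + 11) j.val))

/-- the length of the inputs -/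
def len : ℕ := 2 * d.s + 1 + (2 * d.b + 1 + (2 * (2 * d.as.sum + d.as.length + 2 * (8 * d.n) + 1 +
  (d.n + 11)) + 1 + 2 ^ (64 * d.n)))

theorem length_x (j : Fin (2 ^ (d.u + 11))) : (d.x j).length = d.len := by
  unfold x len
  rw [length_xin, enc_len, length_bitsOf]

/-- the number of bits -/
def N : ℕ := Nat.log 2 d.len

/-- the strings for the roots -/
def xs (u : List Bool) (j : Fin (2 ^ (d.u + 11))) : List Bool :=
  enc d.as (8 * d.n) (bitsOf (d.n + 11) j.val ++ u)

/-- the indices of the leaves -/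
abbrev J : Type := Idx (Fin (2 ^ (d.u + 11))) (pw d.as)

/-- the strings for the leaves -/
def e (u : List Bool) (g : d.J) : List Bool :=
  true :: pairBits (List.replicate (8 * d.n) true) (addr (d.xs u) d.as g)

/-- the strings for the key -/
def kb (u : List Bool) : Finset (List Bool) := (strs d.b).image (fun v => false :: (u ++ v))

/-- the oracles for which the algorithms are right -/
def Right (Q : Oracle) : Set Oracle :=
  {A | ∀ j, ∃ r, d.MR.out (join Q A) (pairBits d.π (d.x j)) = some r ∧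
    ((d.x j, d.k) ∈ prob d.t (join Q A) ↔
      ∃ w : List Bool, w.length ≤ d.h * (d.N + 1) ∧
        Alt (d.g * (d.N + 1)) (Tail d.M (join Q A) (d.h * (d.N + 1)) d.h) d.t false (pairBits w r))}

/-- the weights of the statuses of the leaves -/
noncomputable def _root_.Pool.Agent.TH683.WS.law1 (n : ℕ) : Option Bool → ℝ
  | none => 1 / 2 ^ (4 * n)
  | some true => 0
  | some false => 1 - 1 / 2 ^ (4 * n)

/-- the numerical conditions -/
structure Ok : Prop where
  hn : 5 ≤ d.n
  hu : 8 * d.u ≤ d.n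
  hu2 : 2 ≤ d.u
  hlen : d.as.length = d.t + 2
  has : ∀ a ∈ d.as, a ≤ 64 * d.n
  hlaw : Ex (law1 d.n)
      (Wt (X := Fin (2 ^ (d.u + 11))) (1 / 2 ^ (4 * d.n)) (1 / 2 ^ (2 * d.n))
        (8 * d.n * 2 ^ (4 * d.n)) (1 / 256) (2 ^ (3 * d.u + 11)) (2 ^ (d.u + 9)) (pw d.as)) ≤
        (9 / 10) ^ (2 ^ (d.u + 11))
  hs : d.s + 1 = 2 ^ d.b
  hs1 : d.n ≤ d.s
  hb : d.b ≤ 64 * d.n
  hk : 2 ≤ d.k
  hw : 2 * d.s + 1 + 64 * d.n ≤ d.k * (d.N + 1)
  hkey : 2 + d.s + d.b ≤ d.k * (d.N + 1)
  hleaf : 2 + (2 * (8 * d.n) + 1 + ((2 * d.as.sum + d.as.length + 2 * (8 * d.n) + 1 +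
    (d.n + 11 + d.s)) + d.as.sum)) ≤ d.k * (d.N + 1)
  hT : 4 * (2 ^ (d.u + 11) * d.MR.p.eval (2 * d.π.length + 1 + d.len)) ≤ 2 ^ d.s
  hh : d.h + 1 ≤ 2 ^ (2 * d.u)
  hbig : (d.t + 1) + (d.n + 11) + (d.t + 1) * (2 * ((d.h + d.g + 1) * (d.N + 1)) + 1) + 3 ≤
    2 ^ (2 * d.u)

variable {d}

theorem le_N : 64 * d.n ≤ d.N := by
  unfold N
  calc 64 * d.n = Nat.log 2 (2 ^ (64 * d.n)) := (Nat.log_pow (by norm_num) _).symm
    _ ≤ _ := Nat.log_mono_right (by unfold len; omega)

theorem xs_length {u : List Bool} (hu : u.length = d.s) (j : Fin (2 ^ (d.u + 11))) :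
    (d.xs u j).length = 2 * d.as.sum + d.as.length + 2 * (8 * d.n) + 1 + (d.n + 11 + d.s) := by
  unfold xs
  rw [enc_len, List.length_append, length_bitsOf, hu]

theorem xs_inj (hok : d.Ok) (u : List Bool) : Function.Injective (d.xs u) := by
  intro j j' h
  unfold xs at h
  have h1 := enc_inj d.as (8 * d.n) h
  have h2 := List.append_cancel_right h1
  have h3 : 2 ^ (d.u + 11) ≤ 2 ^ (d.n + 11) :=
    Nat.pow_le_pow_right (by norm_num) (by have := hok.hu; omega)
  exact Fin.ext (bitsOf_inj (lt_of_lt_of_le j.2 h3) (lt_of_lt_of_le j'.2 h3) h2)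

theorem e_inj (hok : d.Ok) {u : List Bool} (hu : u.length = d.s) :
    Function.Injective (d.e u) := by
  intro g g' h
  unfold e at h
  have h1 := congrArg unpair (List.cons.inj h).2
  rw [unpair_pairBits, unpair_pairBits] at h1
  exact addr_inj (d.xs u) (xs_inj hok u) _ (xs_length hu) d.as (Prod.ext_iff.1 h1).2

theorem e_take {u : List Bool} (hu : u.length = d.s) (g : d.J) :
    ∃ j, (unpair (d.e u g).tail).2.take
    (2 * d.as.sum + d.as.length + 2 * (8 * d.n) + 1 + (d.n + 11 + d.s)) = d.xs u j := by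
  obtain ⟨j, hj⟩ := addr_take (d.xs u) _ (xs_length hu) d.as g
  refine ⟨j, ?_⟩
  unfold e
  rw [List.tail_cons, unpair_pairBits]
  exact hj

theorem e_ne {u u' : List Bool} (hu : u.length = d.s) (hu' : u'.length = d.s) (hne : u ≠ u')
    (g g' : d.J) : d.e u g ≠ d.e u' g' := by
  intro h
  obtain ⟨j, hj⟩ := e_take hu g
  obtain ⟨j', hj'⟩ := e_take hu' g'
  rw [h, hj'] at hj
  unfold xs at hj
  have h1 := enc_inj d.as (8 * d.n) hj
  exact hne (List.append_inj h1 (by rw [length_bitsOf, length_bitsOf])).2.symm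

theorem e_len {u : List Bool} (hu : u.length = d.s) (g : d.J) : (d.e u g).length + 1 =
    2 + (2 * (8 * d.n) + 1 + ((2 * d.as.sum + d.as.length + 2 * (8 * d.n) + 1 +
    (d.n + 11 + d.s)) + d.as.sum)) := by
  have h2 := length_addr (d.xs u) _ (xs_length hu) d.as g
  unfold e
  rw [List.length_cons, length_pairBits, List.length_replicate, h2]
  omega

theorem e_notMem (u u' : List Bool) (g : d.J) : d.e u g ∉ d.kb u' := by
  intro h
  obtain ⟨v, _, hv⟩ := Finset.mem_image.1 h
  unfold e at hv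
  simp at hv

theorem kb_disj {u u' : List Bool} (hu : u.length = d.s) (hu' : u'.length = d.s) (hne : u ≠ u') :
    Disjoint (d.kb u) (d.kb u') := by
  rw [Finset.disjoint_left]
  intro y hy hy'
  obtain ⟨v, _, rfl⟩ := Finset.mem_image.1 hy
  obtain ⟨v', _, hv⟩ := Finset.mem_image.1 hy'
  exact hne (List.append_inj (List.cons.inj hv).2 (by rw [hu, hu'])).1.symm

theorem kb_card (hok : d.Ok) (u : List Bool) : (d.kb u).card = d.s + 1 := by
  unfold kb
  rw [Finset.card_image_of_injective, card_strs, hok.hs]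
  intro v v' h
  exact List.append_cancel_left (List.cons.inj h).2

theorem kb_len {u : List Bool} (hu : u.length = d.s) {y : List Bool} (hy : y ∈ d.kb u) :
    y.length = 1 + d.s + d.b := by
  obtain ⟨v, hv, rfl⟩ := Finset.mem_image.1 hy
  rw [List.length_cons, List.length_append, hu, mem_strs.1 hv]
  omega

/-- the meaning of the key -/
theorem key_iff (hok : d.Ok) (Q A : Oracle) {u : List Bool} (hu : u.length = d.s) :
    (∀ i < 2 ^ d.b, upTo (d.k * (d.N + 1)) (join Q A) (true :: false :: (u ++ bitsOf d.b i)) =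
      true) ↔ A ∈ wit (d.kb u) tt := by
  have h0 : ∀ v : List Bool, v.length = d.b →
      upTo (d.k * (d.N + 1)) (join Q A) (true :: false :: (u ++ v)) = A (false :: (u ++ v)) := by
    intro v hv
    show (decide ((true :: false :: (u ++ v)).length ≤ d.k * (d.N + 1)) &&
      A (false :: (u ++ v))) = _
    rw [decide_eq_true, Bool.true_and]
    rw [List.length_cons, List.length_cons, List.length_append, hu, hv]
    have := hok.hkey
    omega
  constructor
  · intro h y hy
    obtain ⟨v, hv, rfl⟩ := Finset.mem_image.1 hy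
    have hv' := mem_strs.1 hv
    obtain ⟨i, hi, h2⟩ := exists_bitsOf v
    rw [hv'] at hi h2
    have h3 := h i hi
    rw [h2, h0 v hv'] at h3
    exact h3
  · intro h i _
    rw [h0 _ (length_bitsOf _ _)]
    exact h _ (Finset.mem_image.2 ⟨_, mem_strs.2 (length_bitsOf _ _), rfl⟩)

/-- the meaning of the problem -/
theorem x_iff (hok : d.Ok) (Q A : Oracle) (j : Fin (2 ^ (d.u + 11))) :
    (d.x j, d.k) ∈ prob d.t (join Q A) ↔ ∃ u : List Bool, u.length = d.s ∧
      A ∈ wit (d.kb u) tt ∧ Tr (pw d.as) (fun g => A (d.e u g)) j = false := by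
  have hNl : Nat.log 2 (xin d.s d.b (2 ^ (64 * d.n)) (enc d.as (8 * d.n)
      (bitsOf (d.n + 11) j.val))).length = d.N := by
    have h1 := d.length_x j
    unfold x at h1
    rw [h1]
    rfl
  have hle := le_N (d := d)
  have hn := hok.hn
  have h1 := mem_prob (t := d.t) (join Q A) (k := d.k) (s := d.s) (b := d.b)
    (P := 2 ^ (64 * d.n)) (W := 8 * d.n) (N := d.N) (as := d.as) (z := bitsOf (d.n + 11) j.val)
    hok.hk hok.hlen hNl (fun a ha => by have := hok.has a ha; omega)
    (by have := hok.hb; omega)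
    (fun a ha => by have := hok.has a ha; have := hok.hw; omega)
  unfold x
  rw [h1]
  refine exists_congr fun u => and_congr_right fun hu => and_congr (key_iff hok Q A hu) ?_
  have h2 := Tr_addr (d.xs u) d.as (lf (upTo (d.k * (d.N + 1)) (join Q A))
    (List.replicate (8 * d.n) true)) j
  have h3 : (fun g : d.J => lf (upTo (d.k * (d.N + 1)) (join Q A))
      (List.replicate (8 * d.n) true) (addr (d.xs u) d.as g)) = fun g => A (d.e u g) := by
    funext g
    show (decide ((true :: d.e u g).length ≤ d.k * (d.N + 1)) && A (d.e u g)) = _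
    rw [decide_eq_true, Bool.true_and]
    rw [List.length_cons]
    have h4 := e_len hu g
    have h5 := hok.hleaf
    omega
  rw [← h3, h2]
  rfl

end Sd

end Pool.Agent.TH683.WS
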